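import Pool.Agent.P8H49.MX.Gau

/-!
# Project MX (helper30), package VAL
-/

set_option autoImplicit false

open PowerSeries Pool.Agent.Y113

namespace Pool.Agent.P8H49.MX

open Pool.Agent.P8H30.MX Pool.Agent.P8H40.HA
open Pool.Agent.Y119.HY (Am Jm cm E kx aq hq Hq hps Hf Hc Yf QB)
open Pool.Agent.Y119.HZ (Hp Wp hf ix evq km km_apply th)

variable {n : ℕ} {Q f : Polynomial ℚ}

/-- convergence of the entries -/
lemma Cv_Hg (hG : S_GAU) (hV : S_CVH) {g : ℕ → ℚ⟦X⟧} (hQ : QG n Q) (hf : f.eval 0 ≠ 0) (h0 : g 0 = 1)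
    (hg : ∀ k, g k * Polynomial.aeval (kx 0) f = aq n Q k * Polynomial.aeval (kx k) f) {x : ℝ} (hx : 1 < x) (i j : Fin n) :
    Cv x (Hg n g i j) := by
  have hx0 : 0 < x := by linarith
  obtain ⟨e, G, h, -⟩ := hG n Q f g hQ hf h0 hg
  have h1 : ∀ k, ∑ l, Hg n g i l * C (Pm n (Polynomial.aeval (kx 0) f) l k) =
      (PowerSeries.mk 1 : ℚ⟦X⟧) ^ e * ∑ l, (G i l : ℚ⟦X⟧) * Hp n Q l k := by
    intro k
    rw [← h, ← mul_assoc, ← mul_pow, PowerSeries.mk_one_mul_one_sub_eq_one, one_pow, one_mul]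
  have h2 : Hg n g i j = ∑ k, (∑ l, Hg n g i l * C (Pm n (Polynomial.aeval (kx 0) f) l k)) * C (Pm n (Polynomial.aeval (kx 0) f)⁻¹ k j) := by
    have h3 : ∀ l, ∑ k, C (Pm n (Polynomial.aeval (kx 0) f) l k) * C (Pm n (Polynomial.aeval (kx 0) f)⁻¹ k j) = (if l = j then 1 else 0 : ℚ⟦X⟧) := by
      intro l
      have h4 := congrFun (congrFun (Pm_inv_g n hf) l) j
      rw [Matrix.mul_apply, Matrix.one_apply] at h4
      have h5 := congrArg (C (R := ℚ)) h4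
      rw [map_sum] at h5
      simp only [map_mul] at h5
      rw [h5]
      split_ifs <;> simp
    simp only [Finset.sum_mul, mul_assoc]
    rw [Finset.sum_comm]
    simp only [← Finset.mul_sum, h3]
    simp
  rw [h2]
  refine Cv.sum hx0 _ _ fun k _ => Cv.mul hx0 ?_ (Cv.C _)
  rw [h1]
  refine Cv.mul hx0 (Cv.pow hx0 (Cv_geom hx) e) ?_
  exact Cv.sum hx0 _ _ fun l _ => Cv.mul hx0 (Cv.coe _) (hV n Q hQ x hx _ _)

/-- **the gauge transformation at the values** -/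
theorem val_gauge_g (hGa : S_GAU) (hV : S_CVH) {g : ℕ → ℚ⟦X⟧} (hQ : QG n Q) (hf : f.eval 0 ≠ 0) (h0 : g 0 = 1)
    (hg : ∀ k, g k * Polynomial.aeval (kx 0) f = aq n Q k * Polynomial.aeval (kx k) f) :
    ∃ (e : ℕ) (G : Matrix (Fin n) (Fin n) (Polynomial ℚ)), Polynomial.eval 0 G.det ≠ 0 ∧
      ∀ (q : ℚ) (x : ℝ), 1 < x → (q : ℝ) = 1 / x →
        ((1 - (q : ℂ)) ^ e) • (Vx (Hg n g) x * cm (Pm n (Polynomial.aeval (kx 0) f))) =
          (G.map (Polynomial.eval q)).map (algebraMap ℚ ℂ) * Vx (Hp n Q) x := by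
  obtain ⟨e, G, h, hG⟩ := hGa n Q f g hQ hf h0 hg
  refine ⟨e, G, hG, fun q x hx hq => ?_⟩
  have hx0 : 0 < x := by linarith
  ext i j
  have hc1 : ∀ l, Cv x (Hg n g i l * C (Pm n (Polynomial.aeval (kx 0) f) l j)) := fun l => Cv.mul hx0 (Cv_Hg hGa hV hQ hf h0 hg hx i l) (Cv.C _)
  have hc2 : ∀ l, Cv x ((G i l : ℚ⟦X⟧) * Hp n Q l j) := fun l =>
    Cv.mul hx0 (Cv.coe _) (hV n Q hQ x hx _ _)
  have h1 := congrArg (ev x) (h i j)
  rw [Cv.ev_mul hx0 (Cv.pow hx0 Cv_one_sub e) (Cv.sum hx0 _ _ fun l _ => hc1 l), Cv.ev_pow hx0 Cv_one_sub,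
    Cv.ev_sum hx0 _ _ (fun l _ => hc1 l), Cv.ev_sum hx0 _ _ (fun l _ => hc2 l), ev_one_sub] at h1
  have h2 : ∀ l, ev x (Hg n g i l * C (Pm n (Polynomial.aeval (kx 0) f) l j)) = ev x (Hg n g i l) * (Pm n (Polynomial.aeval (kx 0) f) l j : ℚ) := fun l => by
    rw [Cv.ev_mul hx0 (Cv_Hg hGa hV hQ hf h0 hg hx i l) (Cv.C _), ev_C]
  have h3 : ∀ l, ev x ((G i l : ℚ⟦X⟧) * Hp n Q l j) =
      ((Polynomial.eval q (G i l) : ℚ) : ℝ) * ev x (Hp n Q l j) := fun l => by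
    rw [Cv.ev_mul hx0 (Cv.coe _) (hV n Q hQ x hx _ _), ev_coe, ← hq]
    congr 1
    have h4 : (q : ℝ) = algebraMap ℚ ℝ q := rfl
    rw [h4, Polynomial.aeval_algebraMap_apply]
    rfl
  simp only [h2, h3] at h1
  rw [← hq] at h1
  have h5 := congrArg (fun y : ℝ => (y : ℂ)) h1
  simp only [Complex.ofReal_mul, Complex.ofReal_pow, Complex.ofReal_sub, Complex.ofReal_one, Complex.ofReal_sum] at h5
  rw [Matrix.smul_apply, Matrix.mul_apply, Matrix.mul_apply, smul_eq_mul]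
  have h6 : ((q : ℝ) : ℂ) = (q : ℂ) := by push_cast; rfl
  rw [h6] at h5
  refine Eq.trans ?_ (h5.trans ?_)
  · congr 1
  · refine Finset.sum_congr rfl fun l _ => ?_
    unfold Vx
    rw [Matrix.of_apply, Matrix.map_apply, Matrix.map_apply]
    congr 1

/-- VAL -/
theorem val : S_GAU → S_CVH → S_VAL := fun hG hV _ _ _ _ hQ hf h0 hg => val_gauge_g hG hV hQ hf h0 hg

end Pool.Agent.P8H49.MX
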