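import Pool.Agent.P8H30.MX.Stm2

/-!
# Project MX (helper30), package CTG: rows of `f(θ)` are combinations of the rows of `H`
-/

set_option autoImplicit false

open PowerSeries Pool.Agent.Y113

namespace Pool.Agent.P8H49.MX

open Pool.Agent.P8H30.MX Pool.Agent.P8H40.HA
open Pool.Agent.Y119.HY (Am Jm cm E kx aq hq Hq hps Hf Hc Yf coeff_kx_mul mul_Am)
open Pool.Agent.Y119.HZ (Hp Wp hf ix evq km km_apply th coeff_X_deriv)

variable {n : ℕ} {Q : Polynomial ℚ}

lemma nab_g (hO : S_ODE) (hQ : QG n Q) {v : Fin n → ℚ⟦X⟧} (hv : Md n Q v) : Md n Q (Pool.Agent.P8H40.HA.nab v) := by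
  obtain ⟨e, g, h⟩ := hv
  refine ⟨e + 1, fun k => (1 - Polynomial.X) * (Polynomial.X * Polynomial.derivative (g k)) +
    ∑ l, g l * ((1 - Polynomial.X) * Polynomial.C (Am n l k) + Polynomial.X * Polynomial.C (Pool.Agent.Y119.HY.Bm n Q l k)) +
    Polynomial.C (e : ℚ) * Polynomial.X * g k, fun j => ?_⟩
  -- the derivative of `w = (1 - X)^e v`
  have h1 : (1 - X : ℚ⟦X⟧) * (X * d⁄dX ℚ ((1 - X : ℚ⟦X⟧) ^ e * v j)) =
      (1 - X) ^ (e + 1) * (X * d⁄dX ℚ (v j)) - (e : ℚ⟦X⟧) * X * ((1 - X) ^ e * v j) := by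
    rw [Derivation.leibniz]
    simp only [smul_eq_mul]
    linear_combination v j * Pool.Agent.P8H40.HA.deriv_pow e
  have h2 : (1 - X : ℚ⟦X⟧) ^ (e + 1) * Pool.Agent.P8H40.HA.nab v j =
      (1 - X) * (X * d⁄dX ℚ ((1 - X : ℚ⟦X⟧) ^ e * v j) + ∑ l, ((1 - X : ℚ⟦X⟧) ^ e * v l) * C (Am n l j)) +
        (e : ℚ⟦X⟧) * X * ((1 - X) ^ e * v j) := by
    unfold Pool.Agent.P8H40.HA.nab
    have h3 : ∑ l, ((1 - X : ℚ⟦X⟧) ^ e * v l) * C (Am n l j) = (1 - X : ℚ⟦X⟧) ^ e * ∑ l, v l * C (Am n l j) := by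
      rw [Finset.mul_sum]
      exact Finset.sum_congr rfl fun l _ => by ring
    rw [h3, mul_add (1 - X : ℚ⟦X⟧), h1]
    ring
  -- the rows of `H`
  have hode : ∀ l j, (1 - X : ℚ⟦X⟧) * (X * d⁄dX ℚ (Hp n Q l j) + ∑ k, Hp n Q l k * C (Am n k j)) =
      ∑ k, ((1 - X) * C (Am n l k) + X * C (Pool.Agent.Y119.HY.Bm n Q l k)) * Hp n Q k j := by
    intro l j
    have h3 := congrFun (congrFun (hO n Q hQ) l) j
    rw [Matrix.smul_apply, Matrix.add_apply, Matrix.mul_apply, Matrix.mul_apply, smul_eq_mul] at h3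
    exact h3
  rw [h2, h j]
  simp only [h]
  have h4 : d⁄dX ℚ (∑ l, (g l : ℚ⟦X⟧) * Hp n Q l j) = ∑ l, ((Polynomial.derivative (g l) : Polynomial ℚ) : ℚ⟦X⟧) * Hp n Q l j +
      ∑ l, (g l : ℚ⟦X⟧) * d⁄dX ℚ (Hp n Q l j) := by
    rw [map_sum, ← Finset.sum_add_distrib]
    refine Finset.sum_congr rfl fun l _ => ?_
    rw [Derivation.leibniz]
    have h5 : d⁄dX ℚ (g l : ℚ⟦X⟧) = ((Polynomial.derivative (g l) : Polynomial ℚ) : ℚ⟦X⟧) := PowerSeries.derivative_coe _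
    rw [h5]
    simp only [smul_eq_mul]
    ring
  have h6 : ∑ l, (∑ m, (g m : ℚ⟦X⟧) * Hp n Q m l) * C (Am n l j) = ∑ m, (g m : ℚ⟦X⟧) * ∑ l, Hp n Q m l * C (Am n l j) := by
    simp only [Finset.sum_mul, Finset.mul_sum]
    rw [Finset.sum_comm]
    exact Finset.sum_congr rfl fun m _ => Finset.sum_congr rfl fun l _ => by ring
  rw [h4, h6]
  have h7 : (1 - X : ℚ⟦X⟧) * (X * (∑ l, ((Polynomial.derivative (g l) : Polynomial ℚ) : ℚ⟦X⟧) * Hp n Q l j +
      ∑ l, (g l : ℚ⟦X⟧) * d⁄dX ℚ (Hp n Q l j)) + ∑ m, (g m : ℚ⟦X⟧) * ∑ l, Hp n Q m l * C (Am n l j)) =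
      ∑ l, ((1 - X) * (X * ((Polynomial.derivative (g l) : Polynomial ℚ) : ℚ⟦X⟧))) * Hp n Q l j +
      ∑ l, (g l : ℚ⟦X⟧) * ((1 - X : ℚ⟦X⟧) * (X * d⁄dX ℚ (Hp n Q l j) + ∑ k, Hp n Q l k * C (Am n k j))) := by
    rw [← Finset.sum_add_distrib, ← Finset.sum_add_distrib, Finset.mul_sum, ← Finset.sum_add_distrib, Finset.mul_sum]
    exact Finset.sum_congr rfl fun l _ => by ring
  rw [h7]
  simp only [hode]
  have h8 : ∑ l, (g l : ℚ⟦X⟧) * ∑ k, ((1 - X) * C (Am n l k) + X * C (Pool.Agent.Y119.HY.Bm n Q l k)) * Hp n Q k j =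
      ∑ k, (∑ l, (g l : ℚ⟦X⟧) * ((1 - X) * C (Am n l k) + X * C (Pool.Agent.Y119.HY.Bm n Q l k))) * Hp n Q k j := by
    simp only [Finset.sum_mul, Finset.mul_sum]
    rw [Finset.sum_comm]
    exact Finset.sum_congr rfl fun m _ => Finset.sum_congr rfl fun l _ => by ring
  rw [h8, ← Finset.sum_add_distrib, Finset.mul_sum, ← Finset.sum_add_distrib]
  refine Finset.sum_congr rfl fun k _ => ?_
  have h9 : ((∑ l, g l * ((1 - Polynomial.X) * Polynomial.C (Am n l k) + Polynomial.X * Polynomial.C (Pool.Agent.Y119.HY.Bm n Q l k)) :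
      Polynomial ℚ) : ℚ⟦X⟧) = ∑ l, (g l : ℚ⟦X⟧) * ((1 - X) * C (Am n l k) + X * C (Pool.Agent.Y119.HY.Bm n Q l k)) := by
    have h10 := map_sum (Polynomial.coeToPowerSeries.ringHom (R := ℚ))
      (fun l => g l * ((1 - Polynomial.X) * Polynomial.C (Am n l k) + Polynomial.X * Polynomial.C (Pool.Agent.Y119.HY.Bm n Q l k))) Finset.univ
    simp only [Polynomial.coeToPowerSeries.ringHom_apply] at h10
    rw [h10]
    refine Finset.sum_congr rfl fun l _ => ?_
    rw [Polynomial.coe_mul, Polynomial.coe_add, Polynomial.coe_mul, Polynomial.coe_mul, Pool.Agent.P8H40.HA.coe_sub, Polynomial.coe_X,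
      Polynomial.coe_C, Polynomial.coe_C]
  rw [Polynomial.coe_add, Polynomial.coe_add, h9, Polynomial.coe_mul, Polynomial.coe_mul, Polynomial.coe_mul, Pool.Agent.P8H40.HA.coe_sub,
    Polynomial.coe_X, Polynomial.coe_mul, Polynomial.coe_C, Polynomial.coe_X]
  simp only [map_natCast]
  ring

/-- **all rows are combinations of the rows of `H`** -/
theorem rr_g (hO : S_ODE) (hQ : QG n Q) (f : Polynomial ℚ) : Md n Q (rr n Q f) := by
  have hpow : ∀ i : ℕ, Md n Q (rr n Q (Polynomial.X ^ i)) := by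
    intro i
    induction i with
    | zero =>
      refine ⟨0, fun l => if (l : ℕ) = 0 then 1 else 0, fun j => ?_⟩
      have h2 := hQ.two
      rw [Finset.sum_eq_single (⟨0, by omega⟩ : Fin n)]
      · have h3 := rr_pow (Q := Q) (⟨0, by omega⟩ : Fin n) j
        simp only at h3
        rw [h3]
        simp
      · intro l _ hl
        show ((if (l : ℕ) = 0 then (1 : Polynomial ℚ) else 0 : Polynomial ℚ) : ℚ⟦X⟧) * _ = 0
        rw [if_neg (fun h => hl (Fin.ext h)), Polynomial.coe_zero, zero_mul]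
      · intro h
        exact absurd (Finset.mem_univ _) h
    | succ i ih =>
      have h1 := nab_g hO hQ ih
      have h2 : Pool.Agent.P8H40.HA.nab (rr n Q (Polynomial.X ^ i)) = rr n Q (Polynomial.X ^ (i + 1)) := by
        funext j
        rw [nab_rr, pow_succ']
      rwa [h2] at h1
  induction f using Polynomial.induction_on' with
  | add p q hp hq =>
    have h1 := hp.add hq
    have h2 : (fun j => rr n Q p j + rr n Q q j) = rr n Q (p + q) := by
      funext j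
      rw [rr_add]
    rwa [h2] at h1
  | monomial i a =>
    have h1 := (hpow i).smul a
    have h2 : (fun j => C a * rr n Q (Polynomial.X ^ i) j) = rr n Q (Polynomial.monomial i a) := by
      funext j
      rw [← rr_C_mul, Polynomial.C_mul_X_pow_eq_monomial]
    rwa [h2] at h1

/-- CTG -/
theorem ctg : S_ODE → S_CTG := fun hO _ _ hQ f => rr_g hO hQ f

end Pool.Agent.P8H49.MX
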