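import Pool.Agent.P8H49.MX.Ctg

/-!
# Project MX (helper30), packages GAU and GSM
-/

set_option autoImplicit false

open PowerSeries Pool.Agent.Y113

namespace Pool.Agent.P8H49.MX

open Pool.Agent.P8H30.MX Pool.Agent.P8H40.HA
open Pool.Agent.Y119.HY (Am Jm cm E kx aq hq Hq hps Hf Hc Yf coeff_kx_mul mul_Am QB)
open Pool.Agent.Y119.HZ (Hp Wp hf ix evq km km_apply th coeff_X_deriv)

variable {n : ℕ} {Q f : Polynomial ℚ}

lemma cc_aeval (f : Polynomial ℚ) : constantCoeff (Polynomial.aeval (kx 0) f) = f.eval 0 := by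
  rw [Polynomial.aeval_def, Polynomial.hom_eval₂]
  have h1 : (constantCoeff (R := ℚ)).comp (algebraMap ℚ ℚ⟦X⟧) = RingHom.id ℚ := RingHom.ext fun a => by
    rw [RingHom.comp_apply, PowerSeries.algebraMap_apply]
    simp
  have h2 : constantCoeff (kx 0) = 0 := by
    unfold kx
    simp
  rw [h1, h2, Polynomial.eval₂_id]

lemma Hg_mul {g : ℕ → ℚ⟦X⟧} (hg : ∀ k, g k * Polynomial.aeval (kx 0) f = aq n Q k * Polynomial.aeval (kx k) f) (i j : Fin n) :
    ∑ l, Hg n g i l * C (Pm n (Polynomial.aeval (kx 0) f) l j) = rr n Q (Polynomial.X ^ (i : ℕ) * f) j := by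
  ext k
  rw [map_sum]
  have h1 : ∀ l, coeff k (Hg n g i l * C (Pm n (Polynomial.aeval (kx 0) f) l j)) =
      coeff (l : ℕ) (kx k ^ (i : ℕ) * g k) * Pm n (Polynomial.aeval (kx 0) f) l j := by
    intro l
    rw [mul_comm, coeff_C_mul, mul_comm]
    unfold Hg
    rw [Matrix.of_apply, coeff_mk]
  simp only [h1]
  rw [coeff_mul_fin]
  unfold rr
  rw [coeff_mk, mul_assoc, hg, map_mul (Polynomial.aeval (R := ℚ) (kx k)), map_pow (Polynomial.aeval (R := ℚ) (kx k)), Polynomial.aeval_X]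
  congr 1
  ring

lemma coeff_zero_Hg {g : ℕ → ℚ⟦X⟧} (h0 : g 0 = 1) (i j : Fin n) : coeff 0 (Hg n g i j) = if i = j then 1 else 0 := by
  unfold Hg kx
  rw [Matrix.of_apply, coeff_mk, h0, mul_one, Nat.cast_zero, map_zero, zero_add, PowerSeries.coeff_X_pow]
  by_cases h : i = j
  · rw [if_pos h, if_pos (by rw [h])]
  · rw [if_neg h, if_neg fun h' => h (Fin.ext h'.symm)]

lemma Pm_inv_g (n : ℕ) (hf : f.eval 0 ≠ 0) : Pm n (Polynomial.aeval (kx 0) f) * Pm n (Polynomial.aeval (kx 0) f)⁻¹ = 1 := by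
  rw [Pm_mul, PowerSeries.mul_inv_cancel _ (by rw [cc_aeval]; exact hf), Pm_one]

/-- **the gauge transformation** -/
theorem gauge_g (hC : S_CTG) {g : ℕ → ℚ⟦X⟧} (hQ : QG n Q) (hf : f.eval 0 ≠ 0) (h0 : g 0 = 1) (hg : ∀ k, g k * Polynomial.aeval (kx 0) f = aq n Q k * Polynomial.aeval (kx k) f) :
    ∃ (e : ℕ) (G : Matrix (Fin n) (Fin n) (Polynomial ℚ)),
      (∀ i j, (1 - X : ℚ⟦X⟧) ^ e * (∑ l, Hg n g i l * C (Pm n (Polynomial.aeval (kx 0) f) l j)) =
        ∑ l, (G i l : ℚ⟦X⟧) * Hp n Q l j) ∧ Polynomial.eval 0 G.det ≠ 0 := by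
  choose e w hw using fun i : Fin n => hC n Q hQ (Polynomial.X ^ (i : ℕ) * f)
  have hle : ∀ i, e i ≤ ∑ i, e i := fun i => Finset.single_le_sum (f := e) (fun _ _ => Nat.zero_le _) (Finset.mem_univ i)
  refine ⟨∑ i, e i, Matrix.of fun i l => (1 - Polynomial.X) ^ ((∑ i, e i) - e i) * w i l, fun i j => ?_, ?_⟩
  · rw [Hg_mul hg, Md.raise (hw i) (hle i) j]
    rfl
  · set G : Matrix (Fin n) (Fin n) (Polynomial ℚ) :=
      Matrix.of fun i l => (1 - Polynomial.X) ^ ((∑ i, e i) - e i) * w i l with hG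
    have h1 : ∀ i j, (1 - X : ℚ⟦X⟧) ^ (∑ i, e i) * (∑ l, Hg n g i l * C (Pm n (Polynomial.aeval (kx 0) f) l j)) =
        ∑ l, (G i l : ℚ⟦X⟧) * Hp n Q l j := by
      intro i j
      rw [Hg_mul hg, Md.raise (hw i) (hle i) j]
      rfl
    have h2 : G.map (Polynomial.eval 0) = Pm n (Polynomial.aeval (kx 0) f) := by
      ext i j
      have h3 := congrArg (constantCoeff (R := ℚ)) (h1 i j)
      rw [map_mul, map_pow, map_sub, map_one, constantCoeff_X, sub_zero, one_pow, one_mul, map_sum, map_sum] at h3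
      have h4 : ∀ l, constantCoeff (Hg n g i l * C (Pm n (Polynomial.aeval (kx 0) f) l j)) = (if i = l then 1 else 0) * Pm n (Polynomial.aeval (kx 0) f) l j := by
        intro l
        rw [map_mul, constantCoeff_C, ← coeff_zero_eq_constantCoeff_apply, coeff_zero_Hg h0]
      have h5 : ∀ l, constantCoeff ((G i l : ℚ⟦X⟧) * Hp n Q l j) = Polynomial.eval 0 (G i l) * (if l = j then 1 else 0) := by
        intro l
        have h6 : coeff 0 (Hp n Q l j) = Hq n Q 0 l j :=
          congrFun (congrFun (Pool.Agent.Y119.HZ.cf_Hp (Q := Q) 0) l) j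
        rw [map_mul, ← coeff_zero_eq_constantCoeff_apply (Hp n Q l j), h6, Pool.Agent.Y119.HY.Hq_zero,
          Matrix.one_apply, Polynomial.constantCoeff_coe, Polynomial.coeff_zero_eq_eval_zero]
      simp only [h4, h5] at h3
      rw [Matrix.map_apply]
      simpa using h3.symm
    have h7 : Polynomial.eval 0 G.det = (G.map (Polynomial.eval 0)).det := by
      have := RingHom.map_det (Polynomial.evalRingHom (0 : ℚ)) G
      exact this
    rw [h7, h2]
    intro h8
    have h9 := congrArg Matrix.det (Pm_inv_g n hf)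
    rw [Matrix.det_mul, h8, zero_mul, Matrix.det_one] at h9
    exact zero_ne_one h9

/-- GAU -/
theorem gau : S_CTG → S_GAU := fun hC _ _ _ _ hQ hf h0 hg => gauge_g hC hQ hf h0 hg

/-- GSM -/
theorem gsm : S_GSM := by
  intro m s α k
  induction k with
  | zero =>
    unfold gs aq
    rw [Finset.prod_range_zero, Finset.prod_range_zero]
  | succ k ih =>
    have h1 : Polynomial.aeval (kx k) (Mp α) * (∏ j, ((kx k + C (α j)) * (kx k + C (1 - α j)))) =
        Polynomial.aeval (kx k) (QB α) * Polynomial.aeval (kx (k + 1)) (Mp α) := by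
      have h2 : Polynomial.aeval (kx k) (QB α) = ∏ j, (kx k ^ 2 - C (α j) ^ 2) := by
        unfold QB
        rw [map_prod (Polynomial.aeval (R := ℚ) (kx k))]
        refine Finset.prod_congr rfl fun j _ => ?_
        rw [map_sub (Polynomial.aeval (R := ℚ) (kx k)), map_pow (Polynomial.aeval (R := ℚ) (kx k)), Polynomial.aeval_X, Polynomial.aeval_C,
          PowerSeries.algebraMap_apply]
        have : C ((algebraMap ℚ ℚ) (α j ^ 2)) = (C (α j) : ℚ⟦X⟧) ^ 2 := by
          rw [Algebra.algebraMap_self, RingHom.id_apply, map_pow]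
        rw [this]
      rw [aeval_Mp, aeval_Mp, h2, ← Finset.prod_mul_distrib, ← Finset.prod_mul_distrib]
      refine Finset.prod_congr rfl fun j _ => ?_
      rw [kx_succ, map_sub, map_one]
      ring
    have h3 : gs s α (k + 1) = gs s α k * ((∏ j, ((kx k + C (α j)) * (kx k + C (1 - α j)))) * kx k ^ s *
        ((kx (k + 1))⁻¹) ^ (s + 2 * m)) := by
      unfold gs
      rw [Finset.prod_range_succ]
    have h4 : aq (s + 2 * m) (Polynomial.X ^ s * QB α) (k + 1) = aq (s + 2 * m) (Polynomial.X ^ s * QB α) k *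
        (Polynomial.aeval (kx k) (Polynomial.X ^ s * QB α) * ((kx (k + 1))⁻¹) ^ (s + 2 * m)) := by
      unfold aq
      rw [Finset.prod_range_succ]
    have h5 : Polynomial.aeval (kx k) (Polynomial.X ^ s * QB α) = kx k ^ s * Polynomial.aeval (kx k) (QB α) := by
      rw [map_mul (Polynomial.aeval (R := ℚ) (kx k)), map_pow (Polynomial.aeval (R := ℚ) (kx k)), Polynomial.aeval_X]
    rw [h3, h4, h5]
    linear_combination ((∏ j, ((kx k + C (α j)) * (kx k + C (1 - α j)))) * kx k ^ s * ((kx (k + 1))⁻¹) ^ (s + 2 * m)) * ih +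
      aq (s + 2 * m) (Polynomial.X ^ s * QB α) k * kx k ^ s * ((kx (k + 1))⁻¹) ^ (s + 2 * m) * h1

end Pool.Agent.P8H49.MX
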